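import Pool.Agent.R367.CT.Nuc

/-!
# Contracting groups: the reduction to the group given by the multiplication table of the nucleus
-/

set_option autoImplicit false

namespace Pool.Agent.R367.CT

open Pool.Agent.Y462.SS

variable {X G : Type} [Group G]

/-- The subgroup generated by the nucleus is in the class. -/
theorem closure_closed {C : ∀ (G : Type) [Group G], Prop} (hC : Closed C) (hX : Finite X)
    (ψ : G →* Wr X G) {N : Set G} (hs : ∀ g ∈ N, ∀ x, (ψ g).s x ∈ N) (hN : N.Finite)
    (h1 : (1 : G) ∈ N) (hi : ∀ g ∈ N, g⁻¹ ∈ N)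
    (hcon : ∀ g : G, ∃ n, ∀ w : List X, n ≤ w.length → sec ψ g w ∈ N)
    (hfaith : ∀ g : G, (∀ w, act ψ g w = w) → g = 1) (hT : C (TableGroup N)) :
    C (Subgroup.closure N) := by
  have _ : Finite N := hN
  have hf : ∀ w : FreeGroup N,
      ((toG N).comp (PresentedGroup.mk (rels N))) w ∈ Subgroup.closure N := by
    intro w
    induction w using FreeGroup.induction_on with
    | C1 =>
      rw [map_one]
      exact one_mem _
    | of a =>
      have h2 : ((toG N).comp (PresentedGroup.mk (rels N))) (FreeGroup.of a) = a := toG_gen a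
      change ((toG N).comp (PresentedGroup.mk (rels N))) (FreeGroup.of a) ∈ _
      rw [h2]
      exact Subgroup.subset_closure a.2
    | inv_of a ih =>
      rw [map_inv]
      exact inv_mem ih
    | mul a b iha ihb =>
      rw [map_mul]
      exact mul_mem iha ihb
  have hrange : ∀ g : TableGroup N, toG N g ∈ Subgroup.closure N := by
    intro g
    obtain ⟨w, rfl⟩ := PresentedGroup.mk_surjective (rels N) g
    exact hf w
  let π : TableGroup N →* Subgroup.closure N := (toG N).codRestrict _ hrange
  have hπ : Function.Surjective π := by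
    rintro ⟨g, hg⟩
    have h2 : g ∈ (toG N).range := by
      have h3 : Subgroup.closure N ≤ (toG N).range := by
        rw [Subgroup.closure_le]
        intro a ha
        exact ⟨gen ⟨a, ha⟩, toG_gen _⟩
      exact h3 hg
    obtain ⟨k, hk⟩ := h2
    exact ⟨k, Subtype.ext hk⟩
  refine closed_of_contracting hC hX hT (tableRec ψ hs) (Set.range (gen (N := N)))
    (Set.finite_range _) (table_contracting ψ hs hN h1 hi hcon) ?_ _ π hπ ?_
  · rintro _ ⟨a, rfl⟩ h2 -
    apply gen_one
    apply hfaith
    intro w
    rw [← toG_gen a, ← act_toG ψ hs]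
    exact h2 w
  · intro g
    constructor
    · intro h2 w
      have h3 : toG N g = 1 := congrArg Subtype.val h2
      rw [act_toG, h3]
      have h4 : ∀ w : List X, act ψ 1 w = w := by
        rw [acts_iff]
        intro w
        rw [section_one, map_one]
        rfl
      exact h4 w
    · intro h2
      apply Subtype.ext
      apply hfaith
      intro w
      have h3 := h2 w
      rw [act_toG] at h3
      exact h3

/-- The elements all of whose sections of the level `n` are in `L`. -/
def lev (ψ : G →* Wr X G) (L : Subgroup G) (n : ℕ) : Subgroup G where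
  carrier := {g | ∀ w : List X, w.length = n → sec ψ g w ∈ L}
  one_mem' := fun w _ => by
    rw [section_one]
    exact one_mem _
  mul_mem' := fun {a b} ha hb w hw => by
    rw [section_mul]
    exact mul_mem (ha _ ((act_length ψ b w).trans hw)) (hb w hw)
  inv_mem' := fun {a} ha w hw => by
    have h1 := section_mul ψ a a⁻¹ w
    rw [mul_inv_cancel, section_one] at h1
    have h2 : sec ψ a⁻¹ w = (sec ψ a (act ψ a⁻¹ w))⁻¹ := eq_inv_of_mul_eq_one_right h1.symm
    rw [h2]
    exact inv_mem (ha _ ((act_length ψ a⁻¹ w).trans hw))

theorem mem_lev (ψ : G →* Wr X G) (L : Subgroup G) (n : ℕ) (g : G) :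
    g ∈ lev ψ L n ↔ ∀ w : List X, w.length = n → sec ψ g w ∈ L := Iff.rfl

theorem lev_closed {C : ∀ (G : Type) [Group G], Prop} (hC : Closed C) (hX : Finite X)
    (ψ : G →* Wr X G) (hψ : Function.Injective ψ) (L : Subgroup G) (hL : C L) (n : ℕ) :
    C (lev ψ L n) := by
  induction n with
  | zero =>
    refine hC.of_injective _ L
      { toFun := fun g => ⟨g.1, g.2 [] rfl⟩
        map_one' := rfl
        map_mul' := fun _ _ => rfl } ?_ hL
    intro a b h
    exact Subtype.ext (congrArg (fun z : L => (z : G)) h)
  | succ n ih =>
    have h1 : C (Wr X (lev ψ L n)) := Y812.SS.t_wr C hC X _ hX ih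
    refine hC.of_injective _ _
      { toFun := fun g => ⟨fun x => ⟨(ψ g.1).s x, fun w hw => g.2 (x :: w) (by
          rw [List.length_cons, hw])⟩, (ψ g.1).p⟩
        map_one' := ?_
        map_mul' := ?_ } ?_ h1
    · ext x
      · simp
      · simp
    · intro a b
      ext x
      · simp
      · simp
    · intro a b h
      apply Subtype.ext
      apply hψ
      apply Wr.ext
      · funext x
        exact congrArg (fun z : Wr X (lev ψ L n) => ((z.s x : lev ψ L n) : G)) h
      · exact congrArg (fun z : Wr X (lev ψ L n) => z.p) h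

/-- **Contracting groups**: `G` is in the class if the group given by the multiplication table of the
nucleus is. -/
theorem contracting_closed {C : ∀ (G : Type) [Group G], Prop} (hC : Closed C) (hX : Finite X)
    (ψ : G →* Wr X G) {N : Set G} (hs : ∀ g ∈ N, ∀ x, (ψ g).s x ∈ N) (hN : N.Finite)
    (h1 : (1 : G) ∈ N) (hi : ∀ g ∈ N, g⁻¹ ∈ N)
    (hcon : ∀ g : G, ∃ n, ∀ w : List X, n ≤ w.length → sec ψ g w ∈ N)
    (hfaith : ∀ g : G, (∀ w, act ψ g w = w) → g = 1) (hT : C (TableGroup N)) : C G := by
  have hL := closure_closed hC hX ψ hs hN h1 hi hcon hfaith hT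
  have hψ : Function.Injective ψ := by
    rw [injective_iff_map_eq_one]
    intro g hg
    apply hfaith
    rw [acts_iff]
    intro w
    cases w with
    | nil =>
      change (ψ g).p = 1
      rw [hg]
      rfl
    | cons x w =>
      change (ψ (sec ψ ((ψ g).s x) w)).p = 1
      rw [hg]
      change (ψ (sec ψ 1 w)).p = 1
      rw [section_one, map_one]
      rfl
  have hLs : ∀ g ∈ Subgroup.closure N, ∀ x, (ψ g).s x ∈ Subgroup.closure N := by
    intro g hg
    induction hg using Subgroup.closure_induction with
    | mem g hg => exact fun x => Subgroup.subset_closure (hs g hg x)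
    | one =>
      intro x
      rw [map_one]
      exact one_mem _
    | mul a b _ _ iha ihb =>
      intro x
      rw [map_mul]
      exact mul_mem (iha _) (ihb _)
    | inv a _ iha =>
      intro x
      rw [map_inv]
      exact inv_mem (iha _)
  have hLw : ∀ (w : List X) (g : G), g ∈ Subgroup.closure N → sec ψ g w ∈ Subgroup.closure N := by
    intro w
    induction w with
    | nil => exact fun g hg => hg
    | cons x w ih => exact fun g hg => ih _ (hLs g hg x)
  refine Y430.SS.t_union C hC G (lev ψ (Subgroup.closure N)) ?_ ?_ ?_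
  · apply monotone_nat_of_le_succ
    intro n g hg w hw
    have e : w = w.take n ++ w.drop n := (List.take_append_drop _ _).symm
    rw [e, section_append]
    apply hLw
    apply hg
    rw [List.length_take]
    omega
  · intro g
    obtain ⟨n, hn⟩ := hcon g
    exact ⟨n, fun w hw => Subgroup.subset_closure (hn w hw.ge)⟩
  · exact lev_closed hC hX ψ hψ _ hL

end Pool.Agent.R367.CT
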