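import Pool.Agent.Y812.SS.Wr

/-!
# Contracting wreath recursions

`ψ n : Γ n →* Wr (X n) (Γ (n + 1))` is a sequence of wreath recursions. The states of `g : Γ n` at the
level `m ≥ n` are elements of `Γ m`. If the kernels of the actions on the trees have no elements of
finite order, and the deep states of every element of the kernel are in finite sets of bounded size,
then every element of the kernel has only trivial states at some level. So the faithful
quotient of `Γ 0` is a directed colimit of subgroups of iterated wreath products of the `Γ m`.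
-/

set_option autoImplicit false

namespace Pool.Agent.R367.CT

open Pool.Agent.Y462.SS

variable {X : ℕ → Type} {Γ : ℕ → Type} [∀ n, Group (Γ n)]

/-- `State ψ n g m h`: the element `h` of `Γ m` is a state of the element `g` of `Γ n` at some vertex
of the level `m`. -/
inductive State (ψ : ∀ n, Γ n →* Wr (X n) (Γ (n + 1))) (n : ℕ) (g : Γ n) : ∀ m, Γ m → Prop
  | refl : State ψ n g n g
  | step (m : ℕ) (h : Γ m) (x : X m) : State ψ n g m h → State ψ n g (m + 1) ((ψ m h).s x)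

/-- `g` acts trivially on the tree: all its states have trivial permutations. -/
def ActsTrivially (ψ : ∀ n, Γ n →* Wr (X n) (Γ (n + 1))) (n : ℕ) (g : Γ n) : Prop :=
  ∀ (m : ℕ) (h : Γ m), State ψ n g m h → (ψ m h).p = 1

variable {ψ : ∀ n, Γ n →* Wr (X n) (Γ (n + 1))}

theorem State.trans {n : ℕ} {g : Γ n} {m : ℕ} {h : Γ m} (h1 : State ψ n g m h) {l : ℕ} {k : Γ l}
    (h2 : State ψ m h l k) : State ψ n g l k := by
  induction h2 with
  | refl => exact h1
  | step l k x _ ih => exact State.step l k x ih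

theorem ActsTrivially.state {n : ℕ} {g : Γ n} (hg : ActsTrivially ψ n g) {m : ℕ} {h : Γ m}
    (h1 : State ψ n g m h) : ActsTrivially ψ m h :=
  fun l k h2 => hg l k (h1.trans h2)

theorem pow_p {n : ℕ} {h : Γ n} (hp : (ψ n h).p = 1) (k : ℕ) : (ψ n (h ^ k)).p = 1 := by
  induction k with
  | zero => rw [pow_zero, map_one]; rfl
  | succ k ih => rw [pow_succ, map_mul, Wr.mul_p, ih, hp]; rfl

theorem pow_s {n : ℕ} {h : Γ n} (hp : (ψ n h).p = 1) (k : ℕ) (x : X n) :
    (ψ n (h ^ k)).s x = (ψ n h).s x ^ k := by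
  induction k with
  | zero => rw [pow_zero, pow_zero, map_one]; rfl
  | succ k ih =>
    rw [pow_succ, pow_succ, map_mul, Wr.mul_s, hp]
    change (ψ n (h ^ k)).s x * (ψ n h).s x = _
    rw [ih]

/-- The states of the powers of an element which acts trivially. -/
theorem State.pow {n : ℕ} {g : Γ n} (hg : ActsTrivially ψ n g) {m : ℕ} {h : Γ m}
    (h1 : State ψ n g m h) (k : ℕ) : State ψ n (g ^ k) m (h ^ k) := by
  induction h1 with
  | refl => exact State.refl
  | step m h x h2 ih =>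
    have h3 := State.step m (h ^ k) x ih
    rwa [pow_s (hg m h h2)] at h3

theorem one_states {n m : ℕ} {h : Γ m} (h1 : State ψ n (1 : Γ n) m h) : h = 1 := by
  induction h1 with
  | refl => rfl
  | step m h x _ ih =>
    rw [ih, map_one]
    rfl

/-- The powers of an element which acts trivially act trivially. -/
theorem State.of_pow {n : ℕ} {g : Γ n} (hg : ActsTrivially ψ n g) (k : ℕ) {m : ℕ} {h : Γ m}
    (h1 : State ψ n (g ^ k) m h) : ∃ h', State ψ n g m h' ∧ h = h' ^ k := by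
  induction h1 with
  | refl => exact ⟨g, State.refl, rfl⟩
  | step m h x _ ih =>
    obtain ⟨h', h2, h3⟩ := ih
    refine ⟨(ψ m h').s x, State.step m h' x h2, ?_⟩
    rw [h3, pow_s (hg m h' h2)]

theorem ActsTrivially.pow {n : ℕ} {g : Γ n} (hg : ActsTrivially ψ n g) (k : ℕ) :
    ActsTrivially ψ n (g ^ k) := by
  intro m h h1
  obtain ⟨h', h2, h3⟩ := State.of_pow hg k h1
  rw [h3]
  exact pow_p (hg m h' h2) k

/-- In the contracting case the elements which act trivially have only trivial states at some level. -/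
theorem dies (N : ∀ n, Set (Γ n)) (c : ℕ)
    (hN : ∀ n, {h ∈ N n | ActsTrivially ψ n h}.Finite ∧ {h ∈ N n | ActsTrivially ψ n h}.ncard ≤ c)
    (hcon : ∀ g : Γ 0, ActsTrivially ψ 0 g → ∃ m₀, ∀ m ≥ m₀, ∀ h, State ψ 0 g m h → h ∈ N m)
    (htf : ∀ n, ∀ g ∈ N n, ActsTrivially ψ n g → IsOfFinOrder g → g = 1)
    (g : Γ 0) (hg : ActsTrivially ψ 0 g) : ∃ m, ∀ h, State ψ 0 g m h → h = 1 := by
  choose! m₀ hm₀ using hcon
  obtain ⟨M, hM⟩ : ∃ M, ∀ k ≤ c + 1, m₀ (g ^ k) ≤ M := by
    refine ⟨(Finset.range (c + 2)).sup fun k => m₀ (g ^ k), fun k hk => ?_⟩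
    exact Finset.le_sup (f := fun k => m₀ (g ^ k)) (Finset.mem_range.2 (Nat.lt_succ_of_le hk))
  refine ⟨M, fun h h1 => ?_⟩
  have h2 : ∀ k ≤ c + 1, h ^ k ∈ {h ∈ N M | ActsTrivially ψ M h} := fun k hk =>
    ⟨hm₀ (g ^ k) (hg.pow k) M (hM k hk) _ (h1.pow hg k), (hg.state h1).pow k⟩
  have h2' := h2 1 (by omega)
  rw [pow_one] at h2'
  apply htf M h h2'.1 h2'.2
  rw [← not_not (a := IsOfFinOrder h)]
  intro h3
  have h4 : Function.Injective fun k : ℕ => h ^ k := injective_pow_iff_not_isOfFinOrder.2 h3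
  have h5 : (fun k : ℕ => h ^ k) '' (Finset.range (c + 1) : Set ℕ) ⊆
      {h ∈ N M | ActsTrivially ψ M h} := by
    rintro y ⟨k, hk, rfl⟩
    exact h2 k ((Nat.lt_succ_iff.1 (Finset.mem_range.1 hk)).trans (Nat.le_succ c))
  have h6 := Set.ncard_le_ncard h5 (hN M).1
  have h7 : ((fun k : ℕ => h ^ k) '' (Finset.range (c + 1) : Set ℕ)).ncard = c + 1 := by
    rw [Set.ncard_image_of_injective _ h4, Set.ncard_coe_finset, Finset.card_range]
  have h8 := (hN M).2
  omega

/-! ## the kernels of the iterated recursions -/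

/-- the homomorphism to the wreath product of the quotient -/
def phi {Y Δ Λ : Type} [Group Δ] [Group Λ] (f : Λ →* Wr Y Δ) (K : Subgroup Δ) [K.Normal] :
    Λ →* Wr Y (Δ ⧸ K) where
  toFun a := ⟨fun x => ((f a).s x : Δ ⧸ K), (f a).p⟩
  map_one' := by
    ext x
    · simp
    · simp
  map_mul' a b := by
    ext x
    · simp
    · simp

theorem mem_ker_phi {Y Δ Λ : Type} [Group Δ] [Group Λ] (f : Λ →* Wr Y Δ) (K : Subgroup Δ)
    [K.Normal] (g : Λ) : g ∈ (phi f K).ker ↔ (f g).p = 1 ∧ ∀ x, (f g).s x ∈ K := by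
  rw [MonoidHom.mem_ker]
  constructor
  · intro h
    refine ⟨congrArg Wr.p h, fun x => ?_⟩
    have h2 : ((((f g).s x : Δ)) : Δ ⧸ K) = 1 := congrFun (congrArg Wr.s h) x
    exact (QuotientGroup.eq_one_iff _).1 h2
  · rintro ⟨h1, h2⟩
    apply Wr.ext
    · funext x
      exact (QuotientGroup.eq_one_iff _).2 (h2 x)
    · exact h1

variable (ψ)

/-- the elements with trivial permutations above the level `n + j` and trivial states there -/
def kk : ℕ → ∀ n, {K : Subgroup (Γ n) // K.Normal}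
  | 0, _ => ⟨⊥, inferInstance⟩
  | j + 1, n =>
    letI : (kk j (n + 1)).1.Normal := (kk j (n + 1)).2
    ⟨(phi (ψ n) (kk j (n + 1)).1).ker, inferInstance⟩

/-- the same as a subgroup -/
def KK (j n : ℕ) : Subgroup (Γ n) := (kk ψ j n).1

instance KK_normal (j n : ℕ) : (KK ψ j n).Normal := (kk ψ j n).2

theorem KK_zero (n : ℕ) : KK ψ 0 n = ⊥ := rfl

theorem KK_succ (j n : ℕ) : KK ψ (j + 1) n = (phi (ψ n) (KK ψ j (n + 1))).ker := rfl

theorem mem_KK_succ (j n : ℕ) (g : Γ n) :
    g ∈ KK ψ (j + 1) n ↔ (ψ n g).p = 1 ∧ ∀ x, (ψ n g).s x ∈ KK ψ j (n + 1) := by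
  rw [KK_succ, mem_ker_phi]

theorem KK_le_succ (j n : ℕ) : KK ψ j n ≤ KK ψ (j + 1) n := by
  induction j generalizing n with
  | zero =>
    rw [KK_zero]
    exact bot_le
  | succ j ih =>
    intro g h
    rw [mem_KK_succ] at h ⊢
    exact ⟨h.1, fun x => ih (n + 1) (h.2 x)⟩

theorem KK_mono (n : ℕ) : Monotone fun j => KK ψ j n :=
  monotone_nat_of_le_succ fun j => KK_le_succ ψ j n

theorem p_of_mem (j n : ℕ) (g : Γ n) (h : g ∈ KK ψ j n) : (ψ n g).p = 1 := by
  have h1 := KK_le_succ ψ j n h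
  exact ((mem_KK_succ ψ j n g).1 h1).1

theorem acts_of_mem (j n : ℕ) (g : Γ n) (h : g ∈ KK ψ j n) : ActsTrivially ψ n g := by
  have h2 : ∀ (m : ℕ) (k : Γ m), State ψ n g m k → ∃ i, k ∈ KK ψ i m := by
    intro m k h1
    induction h1 with
    | refl => exact ⟨j, h⟩
    | step m k x _ ih =>
      obtain ⟨i, hi⟩ := ih
      exact ⟨i, ((mem_KK_succ ψ i m k).1 (KK_le_succ ψ i m hi)).2 x⟩
  intro m k h1
  obtain ⟨i, hi⟩ := h2 m k h1
  exact p_of_mem ψ i m k hi

theorem State.cons {n : ℕ} {g : Γ n} (x : X n) {m : ℕ} {h : Γ m}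
    (h1 : State ψ (n + 1) ((ψ n g).s x) m h) : State ψ n g m h :=
  (State.step n g x State.refl).trans h1

theorem mem_of_states (j : ℕ) : ∀ (n : ℕ) (g : Γ n), ActsTrivially ψ n g →
    (∀ h : Γ (n + j), State ψ n g (n + j) h → h = 1) → g ∈ KK ψ j n := by
  induction j with
  | zero =>
    intro n g _ h1
    have h2 : g = 1 := h1 g State.refl
    rw [h2]
    exact one_mem _
  | succ j ih =>
    intro n g hg h1
    rw [mem_KK_succ]
    refine ⟨hg n g State.refl, fun x => ?_⟩
    refine ih (n + 1) _ (hg.state (State.step n g x State.refl)) ?_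
    have h3 : ∀ (m : ℕ) (_ : m = n + (j + 1)) (h : Γ m), State ψ n g m h → h = 1 := by
      intro m hm
      subst hm
      exact h1
    intro h h2
    exact h3 _ (by omega) h (State.cons ψ x h2)

theorem C_quot {C : ∀ (G : Type) [Group G], Prop} (hC : Closed C) (hX : ∀ n, Finite (X n))
    (hΓ : ∀ n, C (Γ n)) (j n : ℕ) : C (Γ n ⧸ KK ψ j n) := by
  induction j generalizing n with
  | zero =>
    refine hC.of_injective (Γ n ⧸ KK ψ 0 n) (Γ n)
      (QuotientGroup.lift (KK ψ 0 n) (MonoidHom.id (Γ n)) ?_) ?_ (hΓ n)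
    · intro x hx
      rw [KK_zero, Subgroup.mem_bot] at hx
      exact hx
    · rw [injective_iff_map_eq_one]
      intro a ha
      obtain ⟨y, rfl⟩ := QuotientGroup.mk_surjective a
      have h1 : y = 1 := ha
      rw [h1]
      rfl
  | succ j ih =>
    have h1 : C (Wr (X n) (Γ (n + 1) ⧸ KK ψ j (n + 1))) :=
      Y812.SS.t_wr C hC (X n) _ (hX n) (ih (n + 1))
    exact hC.of_injective (Γ n ⧸ (phi (ψ n) (KK ψ j (n + 1))).ker) _
      (QuotientGroup.kerLift (phi (ψ n) (KK ψ j (n + 1)))) (QuotientGroup.kerLift_injective _) h1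

/-- If every element of the kernel has only trivial states at some level then the faithful quotient
is in the class. -/
theorem closed_of_dies {C : ∀ (G : Type) [Group G], Prop} (hC : Closed C)
    (hX : ∀ n, Finite (X n)) (hΓ : ∀ n, C (Γ n)) (G : Type) [Group G] (π : Γ 0 →* G)
    (hπ : Function.Surjective π) (hker : ∀ g, π g = 1 ↔ ActsTrivially ψ 0 g)
    (hd : ∀ g, ActsTrivially ψ 0 g → ∃ m, ∀ h, State ψ 0 g m h → h = 1) : C G := by
  have hmem : ∀ g, ActsTrivially ψ 0 g → ∃ j, g ∈ KK ψ j 0 := by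
    intro g hg
    obtain ⟨m, hm⟩ := hd g hg
    refine ⟨m, mem_of_states ψ m 0 g hg ?_⟩
    have h3 : ∀ (l : ℕ) (_ : l = m) (h : Γ l), State ψ 0 g l h → h = 1 := by
      intro l hl
      subst hl
      exact hm
    exact h3 _ (Nat.zero_add m)
  have hle : ∀ j, ∀ g ∈ KK ψ j 0, π g = 1 := fun j g h => (hker g).2 (acts_of_mem ψ j 0 g h)
  refine hC.colim ℕ (fun i j => ⟨max i j, le_max_left i j, le_max_right i j⟩)
    (fun j => Γ 0 ⧸ KK ψ j 0)
    (fun i j h => QuotientGroup.map (KK ψ i 0) (KK ψ j 0) (MonoidHom.id (Γ 0)) (KK_mono ψ 0 h))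
    G (fun j => QuotientGroup.lift (KK ψ j 0) π (hle j)) ?_ ?_ ?_ ?_ ?_ ?_
  · intro i h x
    obtain ⟨y, rfl⟩ := QuotientGroup.mk_surjective x
    rfl
  · intro i j k h h' x
    obtain ⟨y, rfl⟩ := QuotientGroup.mk_surjective x
    rfl
  · intro i j h x
    obtain ⟨y, rfl⟩ := QuotientGroup.mk_surjective x
    rfl
  · intro y
    obtain ⟨z, rfl⟩ := hπ y
    exact ⟨0, QuotientGroup.mk z, rfl⟩
  · intro i x hx
    obtain ⟨y, rfl⟩ := QuotientGroup.mk_surjective x
    have h1 : π y = 1 := hx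
    obtain ⟨n, hn⟩ := hmem y ((hker y).1 h1)
    refine ⟨max i n, le_max_left i n, ?_⟩
    have h3 : y ∈ KK ψ (max i n) 0 := KK_mono ψ 0 (le_max_right i n) hn
    exact (QuotientGroup.eq_one_iff _).2 h3
  · intro j
    exact C_quot ψ hC hX hΓ j 0

end Pool.Agent.R367.CT
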