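import Pool.Agent.R367.CT.Stat
import Pool.Agent.Y430.SS.Lf

/-!
# Contracting groups and the group given by the multiplication table of the nucleus
-/

set_option autoImplicit false

namespace Pool.Agent.R367.CT

open Pool.Agent.Y462.SS

/-- apply a homomorphism to all sections -/
def wmap {X Γ Δ : Type} [Group Γ] [Group Δ] (f : Γ →* Δ) : Wr X Γ →* Wr X Δ where
  toFun a := ⟨fun x => f (a.s x), a.p⟩
  map_one' := by
    ext x
    · simp
    · simp
  map_mul' a b := by
    ext x
    · simp
    · simp

section general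

variable {X Γ : Type} [Group Γ]

theorem act_length (ψ : Γ →* Wr X Γ) (g : Γ) (w : List X) : (act ψ g w).length = w.length := by
  induction w generalizing g with
  | nil => rfl
  | cons x w ih =>
    change ((ψ g).p x :: act ψ ((ψ g).s x) w).length = _
    rw [List.length_cons, ih, List.length_cons]

theorem section_mul (ψ : Γ →* Wr X Γ) (g h : Γ) (w : List X) :
    sec ψ (g * h) w = sec ψ g (act ψ h w) * sec ψ h w := by
  induction w generalizing g h with
  | nil => rfl
  | cons x w ih =>
    change sec ψ ((ψ (g * h)).s x) w =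
      sec ψ ((ψ g).s ((ψ h).p x)) (act ψ ((ψ h).s x) w) * sec ψ ((ψ h).s x) w
    rw [map_mul, Wr.mul_s, ih]

theorem section_one (ψ : Γ →* Wr X Γ) (w : List X) : sec ψ 1 w = 1 := by
  induction w with
  | nil => rfl
  | cons x w ih =>
    change sec ψ ((ψ 1).s x) w = 1
    rw [map_one]
    exact ih

end general

section nucleus

variable {X G : Type} [Group G]

/-- `xy = z` for elements `x`, `y`, `z` of the set `N` with `xy = z` in the group. -/
def rels (N : Set G) : Set (FreeGroup N) :=
  {r | ∃ a b c : N, (a : G) * b = c ∧ r = FreeGroup.of a * FreeGroup.of b * (FreeGroup.of c)⁻¹}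

/-- The group with the generators `N` and the relations `xy = z` which hold between them. -/
abbrev TableGroup (N : Set G) : Type := PresentedGroup (rels N)

/-- The generators. -/
def gen {N : Set G} (a : N) : TableGroup N := PresentedGroup.of a

theorem gen_mul {N : Set G} (a b c : N) (h : (a : G) * b = c) : gen a * gen b = gen c := by
  have h1 : (QuotientGroup.mk (FreeGroup.of a * FreeGroup.of b * (FreeGroup.of c)⁻¹) :
      TableGroup N) = 1 := by
    rw [QuotientGroup.eq_one_iff]
    exact Subgroup.subset_normalClosure ⟨a, b, c, h, rfl⟩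
  exact mul_inv_eq_one.1 h1

theorem gen_one {N : Set G} (a : N) (h : (a : G) = 1) : gen a = 1 := by
  have h1 := gen_mul a a a (by rw [h, one_mul])
  exact mul_eq_left.1 h1

theorem gen_inv {N : Set G} (h1 : (1 : G) ∈ N) (hi : ∀ g ∈ N, g⁻¹ ∈ N) (a : N) :
    (gen a)⁻¹ = gen ⟨(a : G)⁻¹, hi a a.2⟩ := by
  have h2 := gen_mul a ⟨(a : G)⁻¹, hi a a.2⟩ ⟨1, h1⟩ (mul_inv_cancel _)
  rw [gen_one ⟨1, h1⟩ rfl] at h2
  exact inv_eq_of_mul_eq_one_right h2

/-- The homomorphism to `G`. -/
def toG (N : Set G) : TableGroup N →* G :=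
  PresentedGroup.toGroup (f := fun a : N => (a : G)) (by
    rintro r ⟨a, b, c, h, rfl⟩
    simp only [map_mul, map_inv, FreeGroup.lift_apply_of]
    rw [h, mul_inv_cancel])

theorem toG_gen {N : Set G} (a : N) : toG N (gen a) = a :=
  PresentedGroup.toGroup.of _

variable (ψ : G →* Wr X G) {N : Set G} (hs : ∀ g ∈ N, ∀ x, (ψ g).s x ∈ N)

/-- The recursion of the generators. -/
def recGen (a : N) : Wr X (TableGroup N) :=
  ⟨fun x => gen ⟨(ψ a).s x, hs a a.2 x⟩, (ψ a).p⟩

/-- The recursion of the group given by the multiplication table. -/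
def tableRec : TableGroup N →* Wr X (TableGroup N) :=
  PresentedGroup.toGroup (f := recGen ψ hs) (by
    rintro r ⟨a, b, c, h, rfl⟩
    simp only [map_mul, map_inv, FreeGroup.lift_apply_of]
    rw [mul_inv_eq_one]
    apply Wr.ext
    · funext x
      refine gen_mul _ _ _ ?_
      change (ψ a).s ((ψ b).p x) * (ψ b).s x = (ψ c).s x
      rw [← h, map_mul]
      rfl
    · change (ψ a).p * (ψ b).p = (ψ c).p
      rw [← h, map_mul]
      rfl)

theorem tableRec_gen (a : N) : tableRec ψ hs (gen a) = recGen ψ hs a :=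
  PresentedGroup.toGroup.of _

theorem wmap_tableRec (g : TableGroup N) : wmap (toG N) (tableRec ψ hs g) = ψ (toG N g) := by
  have h : (wmap (X := X) (toG N)).comp (tableRec ψ hs) = ψ.comp (toG N) := by
    apply PresentedGroup.ext
    intro a
    change wmap (toG N) (tableRec ψ hs (gen a)) = ψ (toG N (gen a))
    rw [tableRec_gen, toG_gen]
    apply Wr.ext
    · funext x
      exact toG_gen _
    · rfl
  exact DFunLike.congr_fun h g

theorem act_toG (g : TableGroup N) (w : List X) :
    act (tableRec ψ hs) g w = act ψ (toG N g) w := by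
  induction w generalizing g with
  | nil => rfl
  | cons x w ih =>
    change (tableRec ψ hs g).p x :: act (tableRec ψ hs) ((tableRec ψ hs g).s x) w =
      (ψ (toG N g)).p x :: act ψ ((ψ (toG N g)).s x) w
    rw [ih, ← wmap_tableRec ψ hs g]
    rfl

theorem section_mem {g : G} (hg : g ∈ N) (w : List X) (hs : ∀ g ∈ N, ∀ x, (ψ g).s x ∈ N) :
    sec ψ g w ∈ N := by
  induction w generalizing g with
  | nil => exact hg
  | cons x w ih => exact ih (hs g hg x)

theorem section_gen (a : N) (w : List X) :
    sec (tableRec ψ hs) (gen a) w = gen ⟨sec ψ a w, section_mem ψ a.2 w hs⟩ := by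
  induction w generalizing a with
  | nil => rfl
  | cons x w ih =>
    change sec (tableRec ψ hs) ((tableRec ψ hs (gen a)).s x) w = _
    rw [tableRec_gen]
    exact ih ⟨(ψ a).s x, hs a a.2 x⟩

/-- The recursion of the table group is contracting. -/
theorem table_contracting (hN : N.Finite) (h1 : (1 : G) ∈ N) (hi : ∀ g ∈ N, g⁻¹ ∈ N)
    (hcon : ∀ g : G, ∃ n, ∀ w : List X, n ≤ w.length → sec ψ g w ∈ N) (g : TableGroup N) :
    ∃ n, ∀ w : List X, n ≤ w.length → sec (tableRec ψ hs) g w ∈ Set.range (gen (N := N)) := by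
  have _ : Finite N := hN
  choose n hn using hcon
  obtain ⟨M, hM⟩ : ∃ M, ∀ a b : N, n (a * b) ≤ M := by
    obtain ⟨M, hM⟩ := (Set.finite_range fun q : N × N => n (q.1 * q.2)).bddAbove
    exact ⟨M, fun a b => hM ⟨(a, b), rfl⟩⟩
  have hgen : ∀ a : N, ∀ w : List X, sec (tableRec ψ hs) (gen a) w ∈
      Set.range (gen (N := N)) := fun a w => ⟨_, (section_gen ψ hs a w).symm⟩
  have hmul : ∀ g h : TableGroup N,
      (∃ n, ∀ w : List X, n ≤ w.length → sec (tableRec ψ hs) g w ∈ Set.range (gen (N := N))) →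
      (∃ n, ∀ w : List X, n ≤ w.length → sec (tableRec ψ hs) h w ∈ Set.range (gen (N := N))) →
      ∃ n, ∀ w : List X, n ≤ w.length →
        sec (tableRec ψ hs) (g * h) w ∈ Set.range (gen (N := N)) := by
    rintro g h ⟨n1, h1⟩ ⟨n2, h2⟩
    refine ⟨max n1 n2 + M, fun w hw => ?_⟩
    have e : w = w.take (max n1 n2) ++ w.drop (max n1 n2) := (List.take_append_drop _ _).symm
    have hl1 : (w.take (max n1 n2)).length = max n1 n2 := by
      rw [List.length_take]
      omega
    have hl2 : M ≤ (w.drop (max n1 n2)).length := by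
      rw [List.length_drop]
      omega
    generalize w.take (max n1 n2) = v at e hl1
    generalize w.drop (max n1 n2) = u at e hl2
    subst e
    rw [section_append, section_mul]
    obtain ⟨a, ha⟩ := h1 (act (tableRec ψ hs) h v) (by
      rw [act_length, hl1]
      exact le_max_left _ _)
    obtain ⟨b, hb⟩ := h2 v (by rw [hl1]; exact le_max_right _ _)
    rw [← ha, ← hb, section_mul, section_gen, section_gen, act_toG, toG_gen]
    have h3 : sec ψ ((a : G) * b) u ∈ N := hn _ u ((hM a b).trans hl2)
    refine ⟨⟨_, h3⟩, (gen_mul _ _ _ ?_).symm⟩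
    exact (section_mul ψ (a : G) b u).symm
  obtain ⟨g, rfl⟩ := QuotientGroup.mk_surjective g
  induction g using FreeGroup.induction_on with
  | C1 =>
    refine ⟨0, fun w _ => ?_⟩
    have h2 := hgen ⟨1, h1⟩ w
    rw [gen_one ⟨1, h1⟩ rfl] at h2
    exact h2
  | of a => exact ⟨0, fun w _ => hgen a w⟩
  | inv_of a _ =>
    refine ⟨0, fun w _ => ?_⟩
    have h2 := hgen ⟨(a : G)⁻¹, hi a a.2⟩ w
    rw [← gen_inv h1 hi a] at h2
    exact h2
  | mul a b iha ihb => exact hmul _ _ iha ihb

end nucleus

end Pool.Agent.R367.CT
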