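import Pool.Agent.R367.CT.Main
import Pool.Agent.Y179.SS.Free

/-!
# Contracting wreath recursions: self-similar groups
-/

set_option autoImplicit false

namespace Pool.Agent.R367.CT

open Pool.Agent.Y462.SS

variable {X Γ : Type} [Group Γ]

/-- The section (state) of `g` at a word. -/
def sec (ψ : Γ →* Wr X Γ) : Γ → List X → Γ
  | g, [] => g
  | g, x :: w => sec ψ ((ψ g).s x) w

theorem section_append (ψ : Γ →* Wr X Γ) (g : Γ) (v w : List X) :
    sec ψ g (v ++ w) = sec ψ (sec ψ g v) w := by
  induction v generalizing g with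
  | nil => rfl
  | cons x v ih => exact ih _

theorem act_append (ψ : Γ →* Wr X Γ) (g : Γ) (v w : List X) :
    act ψ g (v ++ w) = act ψ g v ++ act ψ (sec ψ g v) w := by
  induction v generalizing g with
  | nil => rfl
  | cons x v ih =>
    change (ψ g).p x :: act ψ ((ψ g).s x) (v ++ w) = _
    rw [ih]
    rfl

theorem acts_iff (ψ : Γ →* Wr X Γ) (g : Γ) :
    (∀ w, act ψ g w = w) ↔ ∀ w, (ψ (sec ψ g w)).p = 1 := by
  constructor
  · intro h w
    apply Equiv.ext
    intro x
    have h1 := h (w ++ [x])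
    rw [act_append, h w] at h1
    have h2 := List.append_cancel_left h1
    exact List.head_eq_of_cons_eq h2
  · intro h w
    induction w generalizing g with
    | nil => rfl
    | cons x w ih =>
      change (ψ g).p x :: act ψ ((ψ g).s x) w = x :: w
      rw [ih _ fun v => h (x :: v)]
      have h1 := h []
      have h2 : (ψ g).p = 1 := h1
      rw [h2]
      rfl

theorem state_iff (ψ : Γ →* Wr X Γ) (n : ℕ) (g : Γ) (m : ℕ) (h : Γ) :
    State (X := fun _ => X) (Γ := fun _ => Γ) (fun _ => ψ) n g m h ↔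
      ∃ w : List X, n + w.length = m ∧ h = sec ψ g w := by
  constructor
  · intro h1
    refine State.rec (motive := fun m h _ => ∃ w : List X, n + w.length = m ∧ h = sec ψ g w)
      ?_ ?_ h1
    · exact ⟨[], rfl, rfl⟩
    · intro m h x _ ih
      obtain ⟨w, h1, h2⟩ := ih
      refine ⟨w ++ [x], ?_, ?_⟩
      · rw [List.length_append, List.length_singleton, ← h1]
        rfl
      · rw [section_append, ← h2]
        rfl
  · rintro ⟨w, rfl, rfl⟩
    induction w using List.reverseRecOn with
    | nil => exact State.refl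
    | append_singleton w x ih =>
      have h1 := State.step _ _ x ih
      rw [section_append]
      rw [List.length_append]
      exact h1

theorem actsTrivially_iff (ψ : Γ →* Wr X Γ) (n : ℕ) (g : Γ) :
    ActsTrivially (X := fun _ => X) (Γ := fun _ => Γ) (fun _ => ψ) n g ↔
      ∀ w, act ψ g w = w := by
  rw [acts_iff]
  constructor
  · intro h w
    exact h _ _ ((state_iff ψ n g (n + w.length) _).2 ⟨w, rfl, rfl⟩)
  · intro h m k h1
    obtain ⟨w, -, rfl⟩ := (state_iff ψ n g m k).1 h1
    exact h w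

/-- Self-similar groups: the faithful quotient of a contracting recursion. -/
theorem closed_of_contracting {C : ∀ (G : Type) [Group G], Prop} (hC : Closed C)
    (hX : Finite X) (hΓ : C Γ) (ψ : Γ →* Wr X Γ) (N : Set Γ) (hN : N.Finite)
    (hcon : ∀ g, ∃ n, ∀ w : List X, n ≤ w.length → sec ψ g w ∈ N)
    (htf : ∀ g ∈ N, (∀ w, act ψ g w = w) → IsOfFinOrder g → g = 1)
    (G : Type) [Group G] (π : Γ →* G) (hπ : Function.Surjective π)
    (hker : ∀ g, π g = 1 ↔ ∀ w, act ψ g w = w) : C G := by
  refine closed_of_dies (X := fun _ => X) (Γ := fun _ => Γ) (fun _ => ψ) hC (fun _ => hX)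
    (fun _ => hΓ) G π hπ (fun g => (hker g).trans (actsTrivially_iff ψ 0 g).symm) ?_
  intro g hg
  refine dies (fun _ => N) N.ncard (fun n => ⟨hN.subset fun h h1 => h1.1,
    Set.ncard_le_ncard (fun h h1 => h1.1) hN⟩) ?_ ?_ g hg
  · intro g _
    obtain ⟨n, hn⟩ := hcon g
    refine ⟨n, fun m hm h h1 => ?_⟩
    obtain ⟨w, h2, rfl⟩ := (state_iff ψ 0 g m h).1 h1
    exact hn w (by omega)
  · intro n g h0 h1 h2
    exact htf g h0 ((actsTrivially_iff ψ n g).1 h1) h2

theorem closed_of_free {C : ∀ (G : Type) [Group G], Prop} (hC : Closed C)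
    (hX : Finite X) (α : Type) (ψ : FreeGroup α →* Wr X (FreeGroup α)) (N : Set (FreeGroup α))
    (hN : N.Finite) (hcon : ∀ g, ∃ n, ∀ w : List X, n ≤ w.length → sec ψ g w ∈ N)
    (G : Type) [Group G] (π : FreeGroup α →* G) (hπ : Function.Surjective π)
    (hker : ∀ g, π g = 1 ↔ ∀ w, act ψ g w = w) : C G := by
  refine closed_of_contracting hC hX (Pool.Agent.Y179.SS.t_free C hC α) ψ N hN hcon ?_ G π hπ hker
  intro g _ _ h1
  by_contra h2
  obtain ⟨n, hn, h3⟩ := (isOfFinOrder_iff_pow_eq_one).1 h1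
  apply h2
  have h4 : g ^ n = 1 ^ n := by rw [h3, one_pow]
  exact pow_left_injective (by omega) h4

end Pool.Agent.R367.CT
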