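import Pool.Agent.R367.CT.Fin

/-!
# Contracting virtual endomorphisms
-/

set_option autoImplicit false

namespace Pool.Agent.R367.CT

open Pool.Agent.Y462.SS

variable {Γ : Type} [Group Γ] (H : Subgroup Γ) (θ : H →* Γ)

theorem coset_mem (g : Γ) (x : Γ ⧸ H) : ((g • x).out)⁻¹ * g * x.out ∈ H := by
  have h1 : (QuotientGroup.mk ((g • x).out) : Γ ⧸ H) = QuotientGroup.mk (g * x.out) := by
    rw [QuotientGroup.out_eq']
    conv_lhs => rw [← QuotientGroup.out_eq' x]
    rfl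
  have h2 := QuotientGroup.eq.1 h1
  rwa [← mul_assoc] at h2

/-- The element of `H` whose image under `θ` is the section of `g` at `x`. -/
noncomputable def hel (g : Γ) (x : Γ ⧸ H) : H := ⟨((g • x).out)⁻¹ * g * x.out, coset_mem H g x⟩

/-- The recursion given by a virtual endomorphism. -/
noncomputable def virtRec : Γ →* Wr (Γ ⧸ H) Γ where
  toFun g := ⟨fun x => θ (hel H g x), MulAction.toPerm g⟩
  map_one' := by
    apply Wr.ext
    · funext x
      change θ (hel H 1 x) = 1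
      have h1 : hel H 1 x = 1 := by
        apply Subtype.ext
        change (((1 : Γ) • x).out)⁻¹ * 1 * x.out = 1
        rw [one_smul, mul_one, inv_mul_cancel]
      rw [h1, map_one]
    · apply Equiv.ext
      intro x
      exact one_smul Γ x
  map_mul' g h := by
    apply Wr.ext
    · funext x
      change θ (hel H (g * h) x) = θ (hel H g (h • x)) * θ (hel H h x)
      rw [← map_mul]
      congr 1
      apply Subtype.ext
      change (((g * h) • x).out)⁻¹ * (g * h) * x.out =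
        ((g • h • x).out)⁻¹ * g * (h • x).out * (((h • x).out)⁻¹ * h * x.out)
      rw [mul_smul]
      group
    · apply Equiv.ext
      intro x
      exact mul_smul g h x

theorem virtRec_s (g : Γ) (x : Γ ⧸ H) : (virtRec H θ g).s x = θ (hel H g x) := rfl

theorem virtRec_p (g : Γ) (x : Γ ⧸ H) : (virtRec H θ g).p x = g • x := rfl

/-- The elements of an invariant normal subgroup act trivially. -/
theorem acts_of_invariant (K : Subgroup Γ) [K.Normal] (hKH : K ≤ H)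
    (hθ : ∀ g (hg : g ∈ K), θ ⟨g, hKH hg⟩ ∈ K) (w : List (Γ ⧸ H)) :
    ∀ g ∈ K, act (virtRec H θ) g w = w := by
  induction w with
  | nil => exact fun g _ => rfl
  | cons x w ih =>
    intro g hg
    have h1 : g • x = x := by
      conv_lhs => rw [← QuotientGroup.out_eq' x]
      conv_rhs => rw [← QuotientGroup.out_eq' x]
      change (QuotientGroup.mk (g * x.out) : Γ ⧸ H) = QuotientGroup.mk x.out
      apply Eq.symm
      rw [QuotientGroup.eq, ← mul_assoc]
      have h2 := (inferInstance : K.Normal).conj_mem g hg (x.out)⁻¹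
      rw [inv_inv] at h2
      exact hKH h2
    have h3 : θ (hel H g x) ∈ K := by
      have h4 : (hel H g x : Γ) ∈ K := by
        change ((g • x).out)⁻¹ * g * x.out ∈ K
        rw [h1]
        have h2 := (inferInstance : K.Normal).conj_mem g hg (x.out)⁻¹
        rwa [inv_inv] at h2
      exact hθ _ h4
    change g • x :: act (virtRec H θ) (θ (hel H g x)) w = x :: w
    rw [h1, ih _ h3]

theorem act_one {X Δ : Type} [Group Δ] (ψ : Δ →* Wr X Δ) (w : List X) : act ψ 1 w = w := by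
  have h4 : ∀ w : List X, act ψ 1 w = w := by
    rw [acts_iff]
    intro w
    rw [section_one, map_one]
    rfl
  exact h4 w

theorem act_mul {X Δ : Type} [Group Δ] (ψ : Δ →* Wr X Δ) (g h : Δ) (w : List X) :
    act ψ (g * h) w = act ψ g (act ψ h w) := by
  induction w generalizing g h with
  | nil => rfl
  | cons x w ih =>
    change (ψ (g * h)).p x :: act ψ ((ψ (g * h)).s x) w =
      (ψ g).p ((ψ h).p x) :: act ψ ((ψ g).s ((ψ h).p x)) (act ψ ((ψ h).s x) w)
    rw [map_mul, Wr.mul_s, ih]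
    rfl

/-- The kernel of the action. -/
def actKer {X Δ : Type} [Group Δ] (ψ : Δ →* Wr X Δ) : Subgroup Δ where
  carrier := {g | ∀ w, act ψ g w = w}
  one_mem' := act_one ψ
  mul_mem' := fun {a b} ha hb w => by rw [act_mul, hb, ha]
  inv_mem' := fun {a} ha w => by
    have h1 := act_mul ψ a⁻¹ a w
    rw [inv_mul_cancel, act_one, ha] at h1
    exact h1.symm

instance actKer_normal {X Δ : Type} [Group Δ] (ψ : Δ →* Wr X Δ) : (actKer ψ).Normal where
  conj_mem := by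
    intro n hn g w
    rw [act_mul, act_mul, hn, ← act_mul, mul_inv_cancel, act_one]

theorem actKer_le : actKer (virtRec H θ) ≤ H := by
  intro g hg
  have h1 := hg [((1 : Γ) : Γ ⧸ H)]
  have h2 : g • ((1 : Γ) : Γ ⧸ H) = ((1 : Γ) : Γ ⧸ H) := List.head_eq_of_cons_eq h1
  have h3 : (QuotientGroup.mk (g * 1) : Γ ⧸ H) = QuotientGroup.mk 1 := h2
  have h4 := QuotientGroup.eq.1 h3.symm
  rwa [inv_one, one_mul, mul_one] at h4

theorem actKer_invariant (g : Γ) (hg : g ∈ actKer (virtRec H θ)) :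
    θ ⟨g, actKer_le H θ hg⟩ ∈ actKer (virtRec H θ) := by
  let x : Γ ⧸ H := ((1 : Γ) : Γ ⧸ H)
  have hx : x.out ∈ H := by
    have h1 : (QuotientGroup.mk x.out : Γ ⧸ H) = QuotientGroup.mk 1 := QuotientGroup.out_eq' x
    have h2 := QuotientGroup.eq.1 h1.symm
    rwa [inv_one, one_mul] at h2
  have hgx : g • x = x := List.head_eq_of_cons_eq (hg [x])
  have h1 : θ (hel H g x) ∈ actKer (virtRec H θ) := by
    intro w
    have h2 := hg (x :: w)
    exact List.tail_eq_of_cons_eq h2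
  have h2 : hel H g x = ⟨x.out, hx⟩⁻¹ * ⟨g, actKer_le H θ hg⟩ * ⟨x.out, hx⟩ := by
    apply Subtype.ext
    change ((g • x).out)⁻¹ * g * x.out = (x.out)⁻¹ * g * x.out
    rw [hgx]
  rw [h2, map_mul, map_mul, map_inv] at h1
  have h3 := (actKer_normal (virtRec H θ)).conj_mem _ h1 (θ ⟨x.out, hx⟩)
  have e : θ ⟨x.out, hx⟩ * ((θ ⟨x.out, hx⟩)⁻¹ * θ ⟨g, actKer_le H θ hg⟩ * θ ⟨x.out, hx⟩) *
      (θ ⟨x.out, hx⟩)⁻¹ = θ ⟨g, actKer_le H θ hg⟩ := by group
  rwa [e] at h3

/-- The recursion of a contracting virtual endomorphism is contracting. -/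
theorem virt_contracting [Finite (Γ ⧸ H)] (ℓ : Γ → ℝ) (hmul : ∀ g h, ℓ (g * h) ≤ ℓ g + ℓ h)
    (ρ c : ℝ) (hρ0 : 0 ≤ ρ) (hρ1 : ρ < 1) (hθ : ∀ h : H, ℓ (θ h) ≤ ρ * ℓ h + c) :
    ∃ R : ℝ, ∀ g : Γ, ∃ n : ℕ, ∀ w : List (Γ ⧸ H), n ≤ w.length →
      ℓ (sec (virtRec H θ) g w) ≤ R := by
  obtain ⟨D, hD⟩ : ∃ D : ℝ, ∀ x y : Γ ⧸ H, ℓ (x.out)⁻¹ + ℓ y.out ≤ D := by
    obtain ⟨D, hD⟩ := (Set.finite_range fun q : (Γ ⧸ H) × (Γ ⧸ H) =>
      ℓ (q.1.out)⁻¹ + ℓ q.2.out).bddAbove
    exact ⟨D, fun x y => hD ⟨(x, y), rfl⟩⟩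
  let c' : ℝ := ρ * D + c
  have hstep : ∀ (g : Γ) (x : Γ ⧸ H), ℓ ((virtRec H θ g).s x) ≤ ρ * ℓ g + c' := by
    intro g x
    have h1 := hθ (hel H g x)
    have h2 : ℓ (hel H g x) ≤ ℓ g + D := by
      have h3 := hmul (((g • x).out)⁻¹ * g) x.out
      have h4 := hmul ((g • x).out)⁻¹ g
      have h5 := hD (g • x) x
      change ℓ (((g • x).out)⁻¹ * g * x.out) ≤ ℓ g + D
      linarith
    have h6 := mul_le_mul_of_nonneg_left h2 hρ0
    rw [virtRec_s]
    have e : ρ * ℓ g + c' = ρ * (ℓ g + D) + c := by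
      simp only [c']
      ring
    linarith
  -- `L` is a bound for the fixed point
  let L : ℝ := c' / (1 - ρ)
  have hL : ρ * L + c' = L := by
    have h0 : (1 - ρ) ≠ 0 := by linarith
    simp only [L]
    field_simp
    ring
  let F : Γ → ℝ := fun g => max (ℓ g - L) 0
  have hF0 : ∀ g, 0 ≤ F g := fun g => le_max_right _ _
  have hF1 : ∀ g, ℓ g - L ≤ F g := fun g => le_max_left _ _
  have hFs : ∀ g x, F ((virtRec H θ g).s x) ≤ ρ * F g := by
    intro g x
    refine max_le ?_ (mul_nonneg hρ0 (hF0 g))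
    have h1 := hstep g x
    have h2 := mul_le_mul_of_nonneg_left (hF1 g) hρ0
    linarith
  have hsec : ∀ (w : List (Γ ⧸ H)) (g : Γ), F (sec (virtRec H θ) g w) ≤ ρ ^ w.length * F g := by
    intro w
    induction w with
    | nil =>
      intro g
      rw [List.length_nil, pow_zero, one_mul]
      exact le_rfl
    | cons x w ih =>
      intro g
      change F (sec (virtRec H θ) ((virtRec H θ g).s x) w) ≤ _
      refine (ih _).trans ?_
      rw [List.length_cons, pow_succ, mul_assoc]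
      exact mul_le_mul_of_nonneg_left (hFs g x) (pow_nonneg hρ0 _)
  refine ⟨L + 1, fun g => ?_⟩
  obtain ⟨n, hn⟩ : ∃ n : ℕ, ρ ^ n * F g ≤ 1 := by
    have h1 : Filter.Tendsto (fun n : ℕ => ρ ^ n * F g) Filter.atTop (nhds (0 * F g)) :=
      (tendsto_pow_atTop_nhds_zero_of_lt_one hρ0 hρ1).mul_const _
    rw [zero_mul] at h1
    obtain ⟨n, hn⟩ := (h1.eventually (gt_mem_nhds zero_lt_one)).exists
    exact ⟨n, hn.le⟩
  refine ⟨n, fun w hw => ?_⟩
  have h1 := hsec w g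
  have h2 : ρ ^ w.length ≤ ρ ^ n := pow_le_pow_of_le_one hρ0 hρ1.le hw
  have h3 := mul_le_mul_of_nonneg_right h2 (hF0 g)
  have h4 := hF1 (sec (virtRec H θ) g w)
  linarith

/-- **Contracting virtual endomorphisms.** -/
theorem closed_of_virtual {C : ∀ (G : Type) [Group G], Prop} (hC : Closed C) (hΓ : C Γ)
    (hH : H.FiniteIndex) (ℓ : Γ → ℝ) (hmul : ∀ g h, ℓ (g * h) ≤ ℓ g + ℓ h)
    (hfin : ∀ R : ℝ, {g | ℓ g ≤ R}.Finite)
    (ρ c : ℝ) (hρ0 : 0 ≤ ρ) (hρ1 : ρ < 1) (hθ : ∀ h : H, ℓ (θ h) ≤ ρ * ℓ h + c)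
    (K : Subgroup Γ) [K.Normal] (hKH : K ≤ H) (hKθ : ∀ g (hg : g ∈ K), θ ⟨g, hKH hg⟩ ∈ K)
    (hmax : ∀ (L : Subgroup Γ) (_ : L.Normal) (hLH : L ≤ H),
      (∀ g (hg : g ∈ L), θ ⟨g, hLH hg⟩ ∈ L) → L ≤ K)
    (htf : ∀ g ∈ K, IsOfFinOrder g → g = 1) : C (Γ ⧸ K) := by
  have _ := hH
  have _ : Finite (Γ ⧸ H) := inferInstance
  have hK : ∀ g, g ∈ K ↔ ∀ w, act (virtRec H θ) g w = w := by
    intro g
    constructor
    · intro hg w
      exact acts_of_invariant H θ K hKH hKθ w g hg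
    · intro hg
      exact hmax (actKer (virtRec H θ)) inferInstance (actKer_le H θ) (actKer_invariant H θ) hg
  obtain ⟨R, hR⟩ := virt_contracting H θ ℓ hmul ρ c hρ0 hρ1 hθ
  refine closed_of_contracting hC inferInstance hΓ (virtRec H θ) {g | ℓ g ≤ R} (hfin R) hR ?_
    (Γ ⧸ K) (QuotientGroup.mk' K) (QuotientGroup.mk'_surjective K) ?_
  · intro g _ h1 h2
    exact htf g ((hK g).2 h1) h2
  · intro g
    rw [← hK g]
    exact QuotientGroup.eq_one_iff g

end Pool.Agent.R367.CT
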